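import Mathlib

/-! # Cayley graphs and small complete bipartite graphs: definitions (MP_a61cf6_co) -/

namespace CayK25

/-- The Cayley graph `X(G,H)` of the problem file: distinct vertices `g, g'` are adjacent iff
`g' g⁻¹ ∈ H ∪ H⁻¹`. -/
def cay (G : Type*) [Group G] (H : Set G) : SimpleGraph G where
  Adj g g' := g ≠ g' ∧ (g' * g⁻¹ ∈ H ∨ g * g'⁻¹ ∈ H)
  symm := ⟨by
    intro g g' h
    exact ⟨h.1.symm, h.2.symm⟩⟩
  loopless := ⟨by
    intro g h
    exact h.1 rfl⟩

end CayK25
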