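import Pool.Agent.Helper579.Cayley.Defs

/-! # Cayley graphs and small complete bipartite graphs: definitions (MP_a61cf6_co) -/

namespace CayK25



/-- A finite 2-group acting by conjugation on an invariant nonempty finite set of `m` of its elements:
the centraliser has index at most `2^(m-1)`. -/
theorem centr_index {P : Type*} [Group P] [Finite P] (hP : IsPGroup 2 P) (A : Finset P)
    (hne : A.Nonempty) (hconj : ∀ g : P, ∀ a ∈ A, g * a * g⁻¹ ∈ A) :
    (Subgroup.centralizer (A : Set P)).index ≤ 2 ^ (A.card - 1) := by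
  classical
  letI act : MulAction P {a // a ∈ A} :=
    { smul := fun g a => ⟨g * a.1 * g⁻¹, hconj g a.1 a.2⟩
      one_smul := by
        intro a
        apply Subtype.ext
        show 1 * a.1 * 1⁻¹ = a.1
        group
      mul_smul := by
        intro g h a
        apply Subtype.ext
        show (g * h) * a.1 * (g * h)⁻¹ = g * (h * a.1 * h⁻¹) * g⁻¹
        group }
  obtain ⟨φ, hφ⟩ : ∃ φ : P →* Equiv.Perm {a // a ∈ A}, φ = MulAction.toPermHom P {a // a ∈ A} := ⟨_, rfl⟩
  have happ : ∀ (g : P) (a : {a // a ∈ A}), ((φ g) a).1 = g * a.1 * g⁻¹ := by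
    intro g a
    rw [hφ]
    rfl
  have hker : Subgroup.centralizer (A : Set P) = φ.ker := by
    ext g
    rw [MonoidHom.mem_ker, Subgroup.mem_centralizer_iff]
    constructor
    · intro h
      apply Equiv.ext
      intro a
      apply Subtype.ext
      rw [happ, ← h a.1 a.2]
      simp
    · intro h a ha
      have h1 := happ g ⟨a, ha⟩
      rw [h] at h1
      have h2 : a = g * a * g⁻¹ := h1
      calc a * g = (g * a * g⁻¹) * g := by rw [← h2]
        _ = g * a := by group
  have hdvd : (Subgroup.centralizer (A : Set P)).index ∣ (A.card).factorial := by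
    rw [hker, Subgroup.index_ker]
    have h1 := Subgroup.card_subgroup_dvd_card φ.range
    rwa [Nat.card_eq_fintype_card (α := Equiv.Perm {a // a ∈ A}), Fintype.card_perm, Fintype.card_coe] at h1
  haveI : Fact (Nat.Prime 2) := ⟨Nat.prime_two⟩
  obtain ⟨k, hk⟩ := hP.index (Subgroup.centralizer (A : Set P))
  rw [hk] at hdvd ⊢
  have hm : A.card ≠ 0 := Finset.card_ne_zero.mpr hne
  have h2 := le_emultiplicity_of_pow_dvd hdvd
  have h3 := lt_of_le_of_lt h2 (Nat.emultiplicity_two_factorial_lt hm)
  have h4 : k < A.card := by exact_mod_cast h3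
  exact Nat.pow_le_pow_right (by norm_num) (by omega)

end CayK25
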