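import Pool.Agent.Helper579.Cayley.Defs

/-! # Cayley graphs and small complete bipartite graphs: definitions (MP_a61cf6_co) -/

namespace CayK25



/-- Chevalley-Warning for `r` quadratic forms in `c > 2 r` variables over `F_2`. -/
theorem cw_quadratic (r c : ℕ) (hrc : 2 * r < c) (a : Fin r → Fin c → ZMod 2)
    (b : Fin r → Fin c → Fin c → ZMod 2) :
    ∃ x : Fin c → ZMod 2, x ≠ 0 ∧
      ∀ j, ∑ i, a j i * x i + ∑ i, ∑ k, b j i k * (x i * x k) = 0 := by
  classical
  have : Fact (Nat.Prime 2) := ⟨Nat.prime_two⟩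
  let f : Fin r → MvPolynomial (Fin c) (ZMod 2) := fun j =>
    ∑ i, MvPolynomial.C (a j i) * MvPolynomial.X i +
      ∑ i, ∑ k, MvPolynomial.C (b j i k) * (MvPolynomial.X i * MvPolynomial.X k)
  have hdeg : ∀ j, (f j).totalDegree ≤ 2 := by
    intro j
    refine (MvPolynomial.totalDegree_add _ _).trans (max_le ?_ ?_)
    · refine MvPolynomial.totalDegree_finsetSum_le fun i _ => ?_
      refine (MvPolynomial.totalDegree_mul _ _).trans ?_
      rw [MvPolynomial.totalDegree_C, MvPolynomial.totalDegree_X]; omega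
    · refine MvPolynomial.totalDegree_finsetSum_le fun i _ => MvPolynomial.totalDegree_finsetSum_le fun k _ => ?_
      refine (MvPolynomial.totalDegree_mul _ _).trans ?_
      refine (Nat.add_le_add_left (MvPolynomial.totalDegree_mul _ _) _).trans ?_
      rw [MvPolynomial.totalDegree_C, MvPolynomial.totalDegree_X, MvPolynomial.totalDegree_X]
  have hsum : ∑ j, (f j).totalDegree < Fintype.card (Fin c) := by
    calc ∑ j, (f j).totalDegree ≤ ∑ _j : Fin r, 2 := Finset.sum_le_sum fun j _ => hdeg j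
      _ = 2 * r := by simp [mul_comm]
      _ < Fintype.card (Fin c) := by simpa using hrc
  have hev : ∀ (x : Fin c → ZMod 2) (j : Fin r), MvPolynomial.eval x (f j) =
      ∑ i, a j i * x i + ∑ i, ∑ k, b j i k * (x i * x k) := by
    intro x j
    simp [f, map_sum, map_mul, map_add]
  have hdvd := char_dvd_card_solutions_of_fintype_sum_lt 2 hsum
  have h0 : ∀ j, MvPolynomial.eval (0 : Fin c → ZMod 2) (f j) = 0 := by
    intro j; rw [hev]; simp
  let z : { x : Fin c → ZMod 2 // ∀ j, MvPolynomial.eval x (f j) = 0 } := ⟨0, h0⟩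
  have hpos : 0 < Fintype.card { x : Fin c → ZMod 2 // ∀ j, MvPolynomial.eval x (f j) = 0 } :=
    Fintype.card_pos_iff.2 ⟨z⟩
  have h1 : 1 < Fintype.card { x : Fin c → ZMod 2 // ∀ j, MvPolynomial.eval x (f j) = 0 } :=
    lt_of_lt_of_le one_lt_two (Nat.le_of_dvd hpos (by convert hdvd))
  obtain ⟨y, hy⟩ := Fintype.exists_ne_of_one_lt_card h1 z
  refine ⟨y.1, fun h => hy (Subtype.ext h), fun j => ?_⟩
  rw [← hev]; exact y.2 j

end CayK25
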