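import Pool.Agent.Helper579.Cayley.Defs

/-! # Cayley graphs and small complete bipartite graphs: definitions (MP_a61cf6_co) -/

namespace CayK25



/-- Squares of ordered products when squares and commutators are central. `e` is an (additive)
coordinate homomorphism on the central subgroup `Z`. -/
theorem prod_sq {K : Type*} [Group K] (Z : Subgroup K) (hZ : Z ≤ Subgroup.center K)
    (hsq : ∀ g : K, g ^ 2 ∈ Z) (r c : ℕ) (e : Z →* Multiplicative (Fin r → ZMod 2)) (g : Fin c → K) :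
    ∃ (a : Fin r → Fin c → ZMod 2) (b : Fin r → Fin c → Fin c → ZMod 2),
      ∀ x : Fin c → ZMod 2, ∀ j,
        (Multiplicative.toAdd (e ⟨(List.ofFn (fun i => g i ^ (x i).val)).prod ^ 2, hsq _⟩)) j
          = ∑ i, a j i * x i + ∑ i, ∑ k, b j i k * (x i * x k) := by
  have hZc : ∀ z ∈ Z, ∀ k : K, z * k = k * z :=
    fun z hz k => ((Subgroup.mem_center_iff.mp (hZ hz)) k).symm
  have hform : ∀ u y : K, u * y * u⁻¹ * y⁻¹ = (u * y) ^ 2 * (u ^ 2)⁻¹ * (y ^ 2)⁻¹ := by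
    intro u y
    have h2 : (u ^ 2)⁻¹ * y = y * (u ^ 2)⁻¹ := hZc _ (Z.inv_mem (hsq u)) y
    calc u * y * u⁻¹ * y⁻¹ = u * y * u * ((u ^ 2)⁻¹ * y) * (y ^ 2)⁻¹ := by group
      _ = u * y * u * (y * (u ^ 2)⁻¹) * (y ^ 2)⁻¹ := by rw [h2]
      _ = (u * y) ^ 2 * (u ^ 2)⁻¹ * (y ^ 2)⁻¹ := by rw [pow_two (u * y)]; group
  have hcm : ∀ u y : K, u * y * u⁻¹ * y⁻¹ ∈ Z := by
    intro u y
    rw [hform]
    exact Z.mul_mem (Z.mul_mem (hsq _) (Z.inv_mem (hsq _))) (Z.inv_mem (hsq _))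
  obtain ⟨q, hq⟩ : ∃ q : K → Fin r → ZMod 2,
      ∀ g, q g = Multiplicative.toAdd (e ⟨g ^ 2, hsq g⟩) := ⟨_, fun _ => rfl⟩
  obtain ⟨B, hB⟩ : ∃ B : K → K → Fin r → ZMod 2,
      ∀ u y, B u y = Multiplicative.toAdd (e ⟨u * y * u⁻¹ * y⁻¹, hcm u y⟩) := ⟨_, fun _ _ => rfl⟩
  have F1 : ∀ u y, q (u * y) = q u + q y + B u y := by
    intro u y
    rw [hq, hq, hq, hB, ← toAdd_mul, ← toAdd_mul, ← map_mul, ← map_mul]
    congr 2
    apply Subtype.ext
    show (u * y) ^ 2 = u ^ 2 * y ^ 2 * (u * y * u⁻¹ * y⁻¹)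
    rw [hform]
    have h1 := hZc _ (hsq y) ((u * y) ^ 2 * (u ^ 2)⁻¹ * (y ^ 2)⁻¹)
    have h2 := hZc _ (hsq u) ((u * y) ^ 2 * (u ^ 2)⁻¹)
    rw [mul_assoc (u ^ 2) (y ^ 2), h1, inv_mul_cancel_right, h2, inv_mul_cancel_right]
  have F2 : ∀ u y y', B u (y * y') = B u y + B u y' := by
    intro u y y'
    rw [hB, hB, hB, ← toAdd_mul, ← map_mul]
    congr 2
    apply Subtype.ext
    show u * (y * y') * u⁻¹ * (y * y')⁻¹ = (u * y * u⁻¹ * y⁻¹) * (u * y' * u⁻¹ * y'⁻¹)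
    have h1 := hZc _ (hcm u y') y⁻¹
    calc u * (y * y') * u⁻¹ * (y * y')⁻¹
        = u * y * u⁻¹ * ((u * y' * u⁻¹ * y'⁻¹) * y⁻¹) := by group
      _ = u * y * u⁻¹ * (y⁻¹ * (u * y' * u⁻¹ * y'⁻¹)) := by rw [h1]
      _ = (u * y * u⁻¹ * y⁻¹) * (u * y' * u⁻¹ * y'⁻¹) := by group
  have hone : ∀ (h : (1 : K) ∈ Z), Multiplicative.toAdd (e ⟨1, h⟩) = 0 := by
    intro h
    have : (⟨1, h⟩ : Z) = 1 := rfl
    rw [this, map_one, toAdd_one]
  have q1 : q 1 = 0 := by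
    rw [hq]
    have h1 : (⟨(1 : K) ^ 2, hsq 1⟩ : Z) = 1 := Subtype.ext (by simp)
    rw [h1, map_one, toAdd_one]
  have B1 : ∀ u, B u 1 = 0 := by
    intro u
    rw [hB]
    have h1 : (⟨u * 1 * u⁻¹ * 1⁻¹, hcm u 1⟩ : Z) = 1 := Subtype.ext (by simp)
    rw [h1, map_one, toAdd_one]
  have B1' : ∀ u, B 1 u = 0 := by
    intro u
    rw [hB]
    have h1 : (⟨1 * u * 1⁻¹ * u⁻¹, hcm 1 u⟩ : Z) = 1 := Subtype.ext (by simp)
    rw [h1, map_one, toAdd_one]
  have hz : ∀ t : ZMod 2, t = 0 ∨ t = 1 := by decide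
  have v0 : (0 : ZMod 2).val = 0 := by decide
  have v1 : (1 : ZMod 2).val = 1 := by decide
  have q2 : ∀ (u : K) (t : ZMod 2) j, q (u ^ t.val) j = t * q u j := by
    intro u t j
    rcases hz t with h | h
    · rw [h, v0, pow_zero, q1]; simp
    · rw [h, v1, pow_one, one_mul]
  have B2 : ∀ (u y : K) (t : ZMod 2) j, B u (y ^ t.val) j = t * B u y j := by
    intro u y t j
    rcases hz t with h | h
    · rw [h, v0, pow_zero, B1]; simp
    · rw [h, v1, pow_one, one_mul]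
  have B3 : ∀ (u y : K) (t : ZMod 2) j, B (u ^ t.val) y j = t * B u y j := by
    intro u y t j
    rcases hz t with h | h
    · rw [h, v0, pow_zero, B1']; simp
    · rw [h, v1, pow_one, one_mul]
  have P1 : ∀ (c : ℕ) (g : Fin c → K) (x : Fin c → ZMod 2) (u : K) j,
      B u ((List.ofFn (fun i => g i ^ (x i).val)).prod) j = ∑ i, x i * B u (g i) j := by
    intro c
    induction c with
    | zero =>
      intro g x u j
      simp [B1]
    | succ c ih =>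
      intro g x u j
      rw [List.ofFn_succ, List.prod_cons, F2, Pi.add_apply, B2, ih, Fin.sum_univ_succ]
  have P2 : ∀ (c : ℕ) (g : Fin c → K),
      ∃ (a : Fin r → Fin c → ZMod 2) (b : Fin r → Fin c → Fin c → ZMod 2),
      ∀ x : Fin c → ZMod 2, ∀ j,
        q ((List.ofFn (fun i => g i ^ (x i).val)).prod) j
          = ∑ i, a j i * x i + ∑ i, ∑ k, b j i k * (x i * x k) := by
    intro c
    induction c with
    | zero =>
      intro g
      refine ⟨fun _ _ => 0, fun _ _ _ => 0, fun x j => ?_⟩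
      simp [q1]
    | succ c ih =>
      intro g
      obtain ⟨a, b, hab⟩ := ih (fun i => g i.succ)
      refine ⟨fun j => Fin.cons (q (g 0) j) (a j),
        fun j => Fin.cons (Fin.cons 0 (fun k => B (g 0) (g k.succ) j))
          (fun i => Fin.cons 0 (b j i)), fun x j => ?_⟩
      rw [List.ofFn_succ, List.prod_cons, F1, Pi.add_apply, Pi.add_apply, q2, B3, P1, hab]
      simp only [Fin.sum_univ_succ, Fin.cons_zero, Fin.cons_succ, zero_mul, zero_add]
      rw [Finset.mul_sum]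
      have e1 : ∑ i : Fin c, x 0 * (x i.succ * B (g 0) (g i.succ) j) =
          ∑ i : Fin c, B (g 0) (g i.succ) j * (x 0 * x i.succ) :=
        Finset.sum_congr rfl (fun i _ => by ring)
      rw [e1]
      ring
  obtain ⟨a, b, hab⟩ := P2 c g
  refine ⟨a, b, fun x j => ?_⟩
  rw [← hab x j, hq]

end CayK25
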