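import Pool.Agent.Helper579.Cayley.Defs
import Pool.Agent.Helper579.Cayley.P_cw_quadratic
import Pool.Agent.Helper579.Cayley.P_prod_sq

/-! # Cayley graphs and small complete bipartite graphs: definitions (MP_a61cf6_co) -/

namespace CayK25



theorem exists_equiv_elem (Q : Type*) [Group Q] [Finite Q] (h : ∀ q : Q, q * q = 1) :
    ∃ c : ℕ, Nat.card Q = 2 ^ c ∧ Nonempty (Q ≃* Multiplicative (Fin c → ZMod 2)) := by
  classical
  have hcomm : ∀ a b : Q, a * b = b * a := by
    intro a b
    have ha : a⁻¹ = a := inv_eq_of_mul_eq_one_left (h a)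
    have hb : b⁻¹ = b := inv_eq_of_mul_eq_one_left (h b)
    have hab : (a * b)⁻¹ = a * b := inv_eq_of_mul_eq_one_left (h (a * b))
    calc a * b = (a * b)⁻¹ := hab.symm
      _ = b⁻¹ * a⁻¹ := mul_inv_rev a b
      _ = b * a := by rw [ha, hb]
  letI : CommGroup Q := { (inferInstance : Group Q) with mul_comm := hcomm }
  letI : Module (ZMod 2) (Additive Q) := AddCommGroup.zmodModule (n := 2) (fun x => by
    rw [two_nsmul]
    exact congrArg Additive.ofMul (h (Additive.toMul x)))
  haveI : Finite (Additive Q) := ‹Finite Q›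
  haveI : Module.Finite (ZMod 2) (Additive Q) := Module.Finite.of_finite
  let b := Module.finBasis (ZMod 2) (Additive Q)
  refine ⟨Module.finrank (ZMod 2) (Additive Q), ?_, ⟨?_⟩⟩
  · have h1 := Module.natCard_eq_pow_finrank (K := ZMod 2) (V := Additive Q)
    rw [Nat.card_zmod] at h1
    exact h1
  · exact
      { toFun := fun q => Multiplicative.ofAdd (b.equivFun (Additive.ofMul q))
        invFun := fun y => Additive.toMul (b.equivFun.symm (Multiplicative.toAdd y))
        left_inv := fun q => by simp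
        right_inv := fun y => by
          show Multiplicative.ofAdd (b.equivFun (b.equivFun.symm (Multiplicative.toAdd y))) = y
          rw [LinearEquiv.apply_symm_apply]
          rfl
        map_mul' := fun p q => by
          rw [ofMul_mul, map_add, ofAdd_add] }

theorem single_prod_aux {K : Type*} [Group K] (c : ℕ)
    (φ : K →* Multiplicative (Fin c → ZMod 2)) (g : Fin c → K)
    (hg : ∀ i, φ (g i) = Multiplicative.ofAdd (Pi.single i 1)) (x : Fin c → ZMod 2) :
    φ (List.ofFn (fun i => g i ^ (x i).val)).prod = Multiplicative.ofAdd x := by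
  classical
  rw [map_list_prod, List.map_ofFn, List.prod_ofFn]
  have h1 : ∀ i, (φ ∘ fun i => g i ^ (x i).val) i
      = Multiplicative.ofAdd ((x i).val • (Pi.single i 1 : Fin c → ZMod 2)) := by
    intro i
    simp only [Function.comp_apply, map_pow, hg, ofAdd_nsmul]
  rw [Finset.prod_congr rfl (fun i _ => h1 i), ← ofAdd_sum]
  congr 1
  funext j
  rw [Finset.sum_apply]
  simp only [Pi.smul_apply, Pi.single_apply, nsmul_eq_mul]
  simp

/-- If all squares lie in a central elementary abelian subgroup `Z` of order `2^r`, `Z ≤ W`, and no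
element outside `W` is an involution, then `[K:W] ≤ 4^r`. -/
theorem index_center {K : Type*} [Group K] [Finite K] (Z W : Subgroup K)
    (hZ : Z ≤ Subgroup.center K) (hZW : Z ≤ W) (hsq : ∀ g : K, g ^ 2 ∈ Z)
    (hexp : ∀ z ∈ Z, z ^ 2 = 1) (r : ℕ) (hr : Nat.card Z = 2 ^ r)
    (hW : ∀ g : K, g ∉ W → g ^ 2 ≠ 1) : W.index ≤ 4 ^ r := by
  classical
  by_contra hlt
  push Not at hlt
  have hcomm : ∀ a b : K, a * b * a⁻¹ * b⁻¹ ∈ Z := by
    intro a b
    have h1 : (a * b) ^ 2 ∈ Z := hsq _
    have h2 : a ^ 2 ∈ Z := hsq a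
    have h3 : b ^ 2 ∈ Z := hsq b
    have h4 : a * b * a⁻¹ * b⁻¹ = (a * b) ^ 2 * (a ^ 2)⁻¹ * (b ^ 2)⁻¹ := by
      have hc := Subgroup.mem_center_iff.mp (hZ (Z.inv_mem h2)) b⁻¹
      have : (a * b) ^ 2 * (a ^ 2)⁻¹ * (b ^ 2)⁻¹
          = a * b * a * b * ((a ^ 2)⁻¹ * b⁻¹) * b⁻¹ := by
        simp only [pow_two, mul_inv_rev, mul_assoc]
      rw [this, ← hc]
      simp only [pow_two, mul_inv_rev, mul_assoc]
      simp
    rw [h4]
    exact Z.mul_mem (Z.mul_mem h1 (Z.inv_mem h2)) (Z.inv_mem h3)
  haveI hN : W.Normal := ⟨by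
    intro w hw k
    have h1 : k * w * k⁻¹ = (k * w * k⁻¹ * w⁻¹) * w := by group
    rw [h1]
    exact W.mul_mem (hZW (hcomm k w)) hw⟩
  obtain ⟨c, hc, ⟨f⟩⟩ := exists_equiv_elem (K ⧸ W) (by
    intro q
    induction q using QuotientGroup.induction_on with
    | H k =>
      rw [← QuotientGroup.mk_mul, ← pow_two]
      exact (QuotientGroup.eq_one_iff _).mpr (hZW (hsq k)))
  obtain ⟨r', hr', ⟨e⟩⟩ := exists_equiv_elem Z (by
    intro z
    apply Subtype.ext
    have := hexp z z.2
    rw [pow_two] at this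
    simpa using this)
  have hrr : r' = r := by
    have : 2 ^ r' = 2 ^ r := by rw [← hr', hr]
    exact Nat.pow_right_injective (le_refl 2) this
  subst hrr
  have hidx : W.index = 2 ^ c := hc
  have hrc : 2 * r' < c := by
    rw [hidx] at hlt
    have h4 : (4 : ℕ) ^ r' = 2 ^ (2 * r') := by
      rw [pow_mul]
      norm_num
    rw [h4] at hlt
    exact (Nat.pow_lt_pow_iff_right (by norm_num)).mp hlt
  let φ : K →* Multiplicative (Fin c → ZMod 2) := f.toMonoidHom.comp (QuotientGroup.mk' W)
  have hφker : ∀ k : K, k ∈ W → φ k = 1 := by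
    intro k hk
    show f (QuotientGroup.mk' W k) = 1
    have : QuotientGroup.mk' W k = 1 := (QuotientGroup.eq_one_iff k).mpr hk
    rw [this, map_one]
  have hsurj : ∀ y, ∃ k : K, φ k = y := by
    intro y
    obtain ⟨k, hk⟩ := QuotientGroup.mk'_surjective W (f.symm y)
    refine ⟨k, ?_⟩
    show f (QuotientGroup.mk' W k) = y
    rw [hk, MulEquiv.apply_symm_apply]
  choose g hg using fun i : Fin c => hsurj (Multiplicative.ofAdd (Pi.single i 1))
  obtain ⟨a, b, hab⟩ := prod_sq Z hZ hsq r' c e.toMonoidHom g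
  obtain ⟨x, hx0, hx⟩ := cw_quadratic r' c hrc a b
  set p := (List.ofFn (fun i => g i ^ (x i).val)).prod with hp
  have hpx : φ p = Multiplicative.ofAdd x := single_prod_aux c φ g hg x
  have hpW : p ∉ W := by
    intro hpW
    have h1 := hφker p hpW
    rw [hpx] at h1
    exact hx0 (by
      have := congrArg Multiplicative.toAdd h1
      simpa using this)
  apply hW p hpW
  have h1 : e ⟨p ^ 2, hsq p⟩ = 1 := by
    apply Multiplicative.toAdd.injective
    funext j
    have h2 := hab x j
    rw [hx j] at h2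
    exact h2
  have h3 : (⟨p ^ 2, hsq p⟩ : Z) = 1 := by
    rw [← map_one e] at h1
    exact e.injective h1
  exact congrArg Subtype.val h3

end CayK25
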