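import Pool.Agent.Helper579.Cayley.Defs

/-! # Cayley graphs and small complete bipartite graphs: definitions (MP_a61cf6_co) -/

namespace CayK25



/-- If `[K:W] > 2`, squares lie in `W` and squares of elements outside `W` are central, then all
squares are central. -/
theorem sq_central {K : Type*} [Group K] [Finite K] (W : Subgroup K)
    (hsq : ∀ g : K, g ^ 2 ∈ W) (hc : ∀ g : K, g ∉ W → g ^ 2 ∈ Subgroup.center K)
    (hidx : 2 < W.index) (g : K) : g ^ 2 ∈ Subgroup.center K := by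
  by_cases hg : g ∈ W
  swap
  · exact hc g hg
  -- two elements outside `W` with product outside `W`
  obtain ⟨a, b, ha, hb, hab⟩ : ∃ a b : K, a ∉ W ∧ b ∉ W ∧ a * b ∉ W := by
    obtain ⟨a, ha⟩ : ∃ a : K, a ∉ W := by
      by_contra hcon
      push Not at hcon
      have : W = ⊤ := (Subgroup.eq_top_iff' W).mpr hcon
      rw [this, Subgroup.index_top] at hidx
      omega
    by_contra hcon
    push Not at hcon
    have hsurj : Function.Surjective (fun b : Bool =>
        (cond b ((1 : K) : K ⧸ W) ((a⁻¹ : K) : K ⧸ W))) := by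
      intro q
      induction q using QuotientGroup.induction_on with
      | H b =>
        by_cases hbW : b ∈ W
        · refine ⟨true, ?_⟩
          show ((1 : K) : K ⧸ W) = (b : K ⧸ W)
          rw [QuotientGroup.eq]
          simpa using hbW
        · refine ⟨false, ?_⟩
          show ((a⁻¹ : K) : K ⧸ W) = (b : K ⧸ W)
          rw [QuotientGroup.eq, inv_inv]
          exact hcon a b ha hbW
    have h1 := Nat.card_le_card_of_surjective _ hsurj
    have h2 : Nat.card Bool = 2 := by simp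
    rw [h2] at h1
    have h3 : W.index = Nat.card (K ⧸ W) := rfl
    omega
  have key : ∀ k : K, k ∉ W → k⁻¹ * g * k * g ∈ Subgroup.center K := by
    intro k hk
    have hkg : k * g ∉ W := fun h => hk ((Subgroup.mul_mem_cancel_right W hg).mp h)
    have h1 := (Subgroup.center K).mul_mem ((Subgroup.center K).inv_mem (hc k hk)) (hc (k * g) hkg)
    have h2 : (k ^ 2)⁻¹ * (k * g) ^ 2 = k⁻¹ * g * k * g := by
      rw [pow_two, pow_two]
      group
    rwa [h2] at h1
  obtain ⟨z1, hz1⟩ : ∃ z, z = a⁻¹ * g * a * g := ⟨_, rfl⟩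
  obtain ⟨z2, hz2⟩ : ∃ z, z = b⁻¹ * g * b * g := ⟨_, rfl⟩
  obtain ⟨z3, hz3⟩ : ∃ z, z = (a * b)⁻¹ * g * (a * b) * g := ⟨_, rfl⟩
  have c1 : z1 ∈ Subgroup.center K := by rw [hz1]; exact key a ha
  have c2 : z2 ∈ Subgroup.center K := by rw [hz2]; exact key b hb
  have c3 : z3 ∈ Subgroup.center K := by rw [hz3]; exact key (a * b) hab
  have e1 : a⁻¹ * g * a = z1 * g⁻¹ := by rw [hz1]; group
  have e2 : b⁻¹ * g⁻¹ * b = g * z2⁻¹ := by rw [hz2]; group
  have m1 : b⁻¹ * z1 = z1 * b⁻¹ := Subgroup.mem_center_iff.mp c1 b⁻¹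
  have m2 : g * z2⁻¹ = z2⁻¹ * g := Subgroup.mem_center_iff.mp ((Subgroup.center K).inv_mem c2) g
  have e3 : z3 = z1 * (z2⁻¹ * (g * g)) := by
    calc z3 = b⁻¹ * (a⁻¹ * g * a) * b * g := by rw [hz3]; group
      _ = b⁻¹ * (z1 * g⁻¹) * b * g := by rw [e1]
      _ = (b⁻¹ * z1) * g⁻¹ * b * g := by group
      _ = (z1 * b⁻¹) * g⁻¹ * b * g := by rw [m1]
      _ = z1 * (b⁻¹ * g⁻¹ * b) * g := by group
      _ = z1 * (g * z2⁻¹) * g := by rw [e2]
      _ = z1 * (z2⁻¹ * g) * g := by rw [m2]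
      _ = z1 * (z2⁻¹ * (g * g)) := by group
  have e4 : g ^ 2 = z2 * (z1⁻¹ * z3) := by
    rw [e3, pow_two]
    group
  rw [e4]
  exact (Subgroup.center K).mul_mem c2 ((Subgroup.center K).mul_mem
    ((Subgroup.center K).inv_mem c1) c3)

end CayK25
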