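import Pool.Agent.Helper579.Cayley.Defs
import Pool.Agent.Helper579.Cayley.P_index_center
import Pool.Agent.Helper579.Cayley.P_sq_central

/-! # Cayley graphs and small complete bipartite graphs: definitions (MP_a61cf6_co) -/

namespace CayK25



theorem index_B_aux.{u} : ∀ (n : ℕ) (K : Type u) [Group K] [Finite K], Nat.card K = n →
    ∀ (W : Subgroup K) (_hsq : ∀ g : K, g ^ 2 ∈ W)
      (_hc : ∀ g : K, g ∉ W → g ^ 2 ∈ Subgroup.center K)
      (B : Finset K) (_h1 : (1 : K) ∉ B) (_hB : ∀ g : K, g ∉ W → g ^ 2 ∈ B),
      ∃ r : ℕ, 2 ^ r ≤ B.card + 1 ∧ W.index ≤ 4 ^ r := by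
  classical
  intro n
  induction n using Nat.strong_induction_on with
  | _ n ih =>
  intro K _ _ hn W hsq hc B h1 hB
  by_cases hW : W = ⊤
  · refine ⟨0, by simp, ?_⟩
    rw [hW, Subgroup.index_top]
    simp
  · have hex : ∃ g, g ∉ W := by
      by_contra hcon
      push Not at hcon
      exact hW ((Subgroup.eq_top_iff' W).2 hcon)
    obtain ⟨g0, hg0⟩ := hex
    have hBpos : 1 ≤ B.card := Finset.card_pos.2 ⟨_, hB g0 hg0⟩
    by_cases hidx : W.index ≤ 4
    · exact ⟨1, by omega, by simpa using hidx⟩
    · push Not at hidx
      set Z : Subgroup K := Subgroup.center K ⊓ W with hZdef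
      have hZc : Z ≤ Subgroup.center K := inf_le_left
      have hZW : Z ≤ W := inf_le_right
      by_cases hY : ∃ Y : Subgroup K, Y ≤ Z ∧ Y ≠ ⊥ ∧ ∀ g, g ∉ W → g ^ 2 ∉ Y
      · obtain ⟨Y, hYZ, hYne, hYg⟩ := hY
        haveI hYn : Y.Normal := by
          constructor
          intro y hy g
          have hyc : y ∈ Subgroup.center K := hZc (hYZ hy)
          rw [Subgroup.mem_center_iff] at hyc
          rw [hyc g, mul_assoc, mul_inv_cancel, mul_one]
          exact hy
        have hsurj : Function.Surjective (QuotientGroup.mk' Y) := QuotientGroup.mk'_surjective Y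
        have hmem : ∀ g : K, QuotientGroup.mk' Y g ∉ W.map (QuotientGroup.mk' Y) → g ∉ W :=
          fun g hg hgW => hg (Subgroup.mem_map_of_mem _ hgW)
        have hcard : Nat.card (K ⧸ Y) < n := by
          have h2 := Subgroup.card_eq_card_quotient_mul_card_subgroup Y
          have h3 : 1 < Nat.card Y := by
            rw [Subgroup.one_lt_card_iff_ne_bot]
            exact hYne
          have h4 : 0 < Nat.card (K ⧸ Y) := Nat.card_pos
          rw [← hn, h2]
          nlinarith
        have hindex : (W.map (QuotientGroup.mk' Y)).index = W.index := by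
          apply Subgroup.index_map_eq W hsurj
          rw [QuotientGroup.ker_mk']
          exact hYZ.trans hZW
        suffices hs : ∃ r : ℕ, 2 ^ r ≤ ((B.image (QuotientGroup.mk' Y)).erase 1).card + 1 ∧
            (W.map (QuotientGroup.mk' Y)).index ≤ 4 ^ r by
          obtain ⟨r, hr1, hr2⟩ := hs
          refine ⟨r, ?_, ?_⟩
          · have h5 : ((B.image (QuotientGroup.mk' Y)).erase 1).card ≤ B.card :=
              (Finset.card_erase_le).trans Finset.card_image_le
            omega
          · rw [← hindex]
            exact hr2
        refine ih (Nat.card (K ⧸ Y)) hcard (K ⧸ Y) rfl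
          (W.map (QuotientGroup.mk' Y)) ?_ ?_ ((B.image (QuotientGroup.mk' Y)).erase 1)
          (Finset.notMem_erase _ _) ?_
        · intro g'
          obtain ⟨g, rfl⟩ := hsurj g'
          rw [← map_pow]
          exact Subgroup.mem_map_of_mem _ (hsq g)
        · intro g' hg'
          obtain ⟨g, rfl⟩ := hsurj g'
          have h6 := hc g (hmem g hg')
          rw [Subgroup.mem_center_iff] at h6 ⊢
          intro x'
          obtain ⟨x, rfl⟩ := hsurj x'
          rw [← map_pow, ← map_mul, ← map_mul, h6 x]
        · intro g' hg'
          obtain ⟨g, rfl⟩ := hsurj g'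
          have h7 := hmem g hg'
          rw [Finset.mem_erase]
          constructor
          · rw [← map_pow]
            intro h8
            have h9 : g ^ 2 ∈ (QuotientGroup.mk' Y).ker := h8
            rw [QuotientGroup.ker_mk'] at h9
            exact hYg g h7 h9
          · rw [← map_pow]
            exact Finset.mem_image_of_mem _ (hB g h7)
      · push Not at hY
        have hcomm : ∀ z ∈ Z, ∀ g : K, g * z = z * g := by
          intro z hz g
          exact (Subgroup.mem_center_iff.1 (hZc hz)) g
        have hexp : ∀ z ∈ Z, z ^ 2 = 1 := by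
          let Y : Subgroup K :=
            { carrier := {y | ∃ z ∈ Z, z ^ 2 = y}
              one_mem' := ⟨1, Z.one_mem, one_pow 2⟩
              mul_mem' := by
                rintro a b ⟨x, hx, rfl⟩ ⟨y, hy, rfl⟩
                refine ⟨x * y, Z.mul_mem hx hy, ?_⟩
                have : Commute x y := hcomm y hy x
                exact this.mul_pow 2
              inv_mem' := by
                rintro a ⟨x, hx, rfl⟩
                exact ⟨x⁻¹, Z.inv_mem hx, inv_pow x 2⟩ }
          have hYZ : Y ≤ Z := by
            rintro y ⟨z, hz, rfl⟩
            exact Z.pow_mem hz 2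
          by_cases hYb : Y = ⊥
          · intro z hz
            have : z ^ 2 ∈ Y := ⟨z, hz, rfl⟩
            rw [hYb] at this
            exact Subgroup.mem_bot.1 this
          · exfalso
            obtain ⟨g, hg, z, hz, hzg⟩ := hY Y hYZ hYb
            have hgz : g * z⁻¹ ∉ W := by
              intro hcon
              apply hg
              have := W.mul_mem hcon (hZW hz)
              rwa [inv_mul_cancel_right] at this
            have h10 := hB _ hgz
            have hcz : Commute g z⁻¹ := hcomm z⁻¹ (Z.inv_mem hz) g
            have h11 : (g * z⁻¹) ^ 2 = 1 := by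
              rw [hcz.mul_pow, inv_pow, hzg, mul_inv_cancel]
            rw [h11] at h10
            exact h1 h10
        have hZB : ∀ t ∈ Z, t ≠ 1 → t ∈ B := by
          intro t ht ht1
          have hle : Subgroup.zpowers t ≤ Z := by
            rw [Subgroup.zpowers_le]
            exact ht
          have hne : Subgroup.zpowers t ≠ ⊥ := by
            rw [Ne, Subgroup.zpowers_eq_bot]
            exact ht1
          obtain ⟨g, hg, hgt⟩ := hY _ hle hne
          have h12 := hB g hg
          have h13 : g ^ 2 ≠ 1 := fun h => h1 (h ▸ h12)
          obtain ⟨k, hk⟩ := Subgroup.mem_zpowers_iff.1 hgt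
          have h14 : t ^ k = 1 ∨ t ^ k = t := by
            have ht2 : t ^ (2 : ℤ) = 1 := by
              have := hexp t ht
              exact_mod_cast this
            rcases Int.even_or_odd' k with ⟨m, rfl | rfl⟩
            · left
              rw [zpow_mul, ht2, one_zpow]
            · right
              rw [zpow_add, zpow_mul, ht2, one_zpow, one_mul, zpow_one]
          rcases h14 with h15 | h15
          · rw [h15] at hk
            exact absurd hk.symm h13
          · rw [h15] at hk
            rw [hk]
            exact h12
        have hcardZ : Nat.card Z ≤ B.card + 1 := by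
          have h16 : (Z : Set K) ⊆ ((insert 1 B : Finset K) : Set K) := by
            intro t ht
            by_cases ht1 : t = 1
            · rw [ht1]
              simp
            · have := hZB t ht ht1
              simp [this]
          have h17 : Nat.card Z ≤ ((insert 1 B : Finset K) : Set K).ncard := by
            have h18 : Nat.card Z = (Z : Set K).ncard := rfl
            rw [h18]
            exact Set.ncard_le_ncard h16 (Finset.finite_toSet _)
          rw [Set.ncard_coe_finset] at h17
          exact h17.trans (Finset.card_insert_le _ _)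
        haveI : Fact (Nat.Prime 2) := ⟨Nat.prime_two⟩
        have hp : IsPGroup 2 Z := by
          intro z
          refine ⟨1, ?_⟩
          apply Subtype.ext
          have := hexp z z.2
          simpa using this
        obtain ⟨r, hr⟩ := IsPGroup.iff_card.1 hp
        refine ⟨r, by rw [← hr]; exact hcardZ, ?_⟩
        refine index_center Z W hZc hZW ?_ hexp r hr ?_
        · intro g
          exact ⟨sq_central W hsq hc (by omega) g, hsq g⟩
        · intro g hg h19
          have := hB g hg
          rw [h19] at this
          exact h1 this

/-- Squares of elements outside `W` are central, nontrivial and lie in the finite set `B`. -/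
theorem index_B {K : Type*} [Group K] [Finite K] (W : Subgroup K)
    (hsq : ∀ g : K, g ^ 2 ∈ W) (hc : ∀ g : K, g ∉ W → g ^ 2 ∈ Subgroup.center K)
    (B : Finset K) (h1 : (1 : K) ∉ B) (hB : ∀ g : K, g ∉ W → g ^ 2 ∈ B) :
    ∃ r : ℕ, 2 ^ r ≤ B.card + 1 ∧ W.index ≤ 4 ^ r := by
  exact index_B_aux (Nat.card K) K rfl W hsq hc B h1 hB

end CayK25
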