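import Pool.Agent.Helper579.Cayley.Defs
import Pool.Agent.Helper579.Cayley.P_centr_index
import Pool.Agent.Helper579.Cayley.P_index_B

/-! # Cayley graphs and small complete bipartite graphs: definitions (MP_a61cf6_co) -/

namespace CayK25



/-- The key lemma on finite 2-groups. -/
theorem index_A {P : Type*} [Group P] [Finite P] (hP : IsPGroup 2 P) (U : Subgroup P)
    (hsq : ∀ g : P, g ^ 2 ∈ U) (A : Finset P) (h1 : (1 : P) ∉ A)
    (hA : ∀ g : P, g ∉ U → g ^ 2 ∈ A) : U.index ≤ 4 ^ A.card := by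
  classical
  by_cases hU : U = ⊤
  · rw [hU, Subgroup.index_top]
    exact Nat.one_le_pow _ _ (by norm_num)
  obtain ⟨g0, hg0⟩ : ∃ g : P, g ∉ U := by
    by_contra h
    push Not at h
    exact hU ((Subgroup.eq_top_iff' U).mpr h)
  have hnorm : ∀ g u : P, u ∈ U → g * u * g⁻¹ ∈ U := by
    intro g u hu
    have h2 : g * u * g⁻¹ = (g * u) ^ 2 * u⁻¹ * (g ^ 2)⁻¹ := by
      simp only [pow_two, mul_inv_rev]
      group
    rw [h2]
    exact U.mul_mem (U.mul_mem (hsq _) (U.inv_mem hu)) (U.inv_mem (hsq g))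
  have hnot : ∀ k g : P, g ∉ U → k * g * k⁻¹ ∉ U := by
    intro k g hg h
    apply hg
    have := hnorm k⁻¹ _ h
    have h2 : k⁻¹ * (k * g * k⁻¹) * k⁻¹⁻¹ = g := by group
    rwa [h2] at this
  let A0 : Finset P := A.filter (fun a => ∃ g, g ∉ U ∧ g ^ 2 = a)
  have hA0m : ∀ g : P, g ∉ U → g ^ 2 ∈ A0 := fun g hg =>
    Finset.mem_filter.mpr ⟨hA g hg, g, hg, rfl⟩
  have hne : A0.Nonempty := ⟨_, hA0m g0 hg0⟩
  have hconj : ∀ g : P, ∀ a ∈ A0, g * a * g⁻¹ ∈ A0 := by
    intro k a ha
    obtain ⟨_, g, hg, rfl⟩ := Finset.mem_filter.mp ha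
    have h2 : k * g ^ 2 * k⁻¹ = (k * g * k⁻¹) ^ 2 := by
      simp only [pow_two]
      group
    rw [h2]
    exact hA0m _ (hnot k g hg)
  have hC := centr_index hP A0 hne hconj
  set C := Subgroup.centralizer (A0 : Set P) with hCdef
  have hcard : A0.card ≤ A.card := Finset.card_filter_le _ _
  have hm1 : 1 ≤ A0.card := hne.card_pos
  obtain ⟨r, hr1, hr2⟩ := index_B (K := C) (U.subgroupOf C)
    (fun g => by
      rw [Subgroup.mem_subgroupOf]
      exact hsq g)
    (fun g hg => by
      rw [Subgroup.mem_subgroupOf] at hg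
      have h3 := hA0m (g : P) hg
      rw [Subgroup.mem_center_iff]
      intro c
      apply Subtype.ext
      have h4 := Subgroup.mem_centralizer_iff.mp c.2 _ (Finset.mem_coe.mpr h3)
      show (c : P) * (g : P) ^ 2 = (g : P) ^ 2 * (c : P)
      exact h4.symm)
    (A0.subtype (· ∈ C))
    (fun h => by
      rw [Finset.mem_subtype] at h
      exact h1 (Finset.mem_filter.mp h).1)
    (fun g hg => by
      rw [Subgroup.mem_subgroupOf] at hg
      rw [Finset.mem_subtype]
      exact hA0m (g : P) hg)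
  have hBc : (A0.subtype (· ∈ C)).card ≤ A0.card := by
    rw [Finset.card_subtype]
    exact Finset.card_filter_le _ _
  have h5 : U.index ≤ (U ⊓ C).index := by
    apply Nat.le_of_dvd
    · exact Nat.pos_of_ne_zero Subgroup.index_ne_zero_of_finite
    · exact Subgroup.index_dvd_of_le inf_le_left
  have h6 : (U ⊓ C).index = U.relIndex C * C.index := by
    rw [← Subgroup.relIndex_mul_index (inf_le_right : U ⊓ C ≤ C), Subgroup.inf_relIndex_right]
  have h7 : U.relIndex C ≤ 4 ^ r := hr2
  have h8 : 2 * r ≤ A0.card + 1 := by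
    rcases Nat.eq_zero_or_pos r with h0 | h0
    · omega
    · have h9 : ∀ r : ℕ, 1 ≤ r → 2 * r ≤ 2 ^ r := by
        intro r hr
        induction r, hr using Nat.le_induction with
        | base => norm_num
        | succ n hn ih =>
          rw [pow_succ]
          omega
      have := h9 r h0
      omega
  calc U.index ≤ (U ⊓ C).index := h5
    _ = U.relIndex C * C.index := h6
    _ ≤ 4 ^ r * 2 ^ (A0.card - 1) := Nat.mul_le_mul h7 hC
    _ = 2 ^ (2 * r + (A0.card - 1)) := by
        rw [pow_add, pow_mul]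
        norm_num
    _ ≤ 2 ^ (2 * A0.card) := Nat.pow_le_pow_right (by norm_num) (by omega)
    _ = 4 ^ A0.card := by
        rw [pow_mul]
        norm_num
    _ ≤ 4 ^ A.card := Nat.pow_le_pow_right (by norm_num) hcard

end CayK25
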