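import Pool.Agent.Helper579.Cayley.Defs

/-! # Cayley graphs and small complete bipartite graphs: definitions (MP_a61cf6_co) -/

namespace CayK25



/-- Defect form of Rado's theorem for a submodular function. -/
theorem rado {α ι : Type*} [DecidableEq α] [Fintype ι] [DecidableEq ι] (ρ : Finset α → ℕ)
    (hmono : ∀ S T, S ⊆ T → ρ S ≤ ρ T)
    (hsub : ∀ S T, ρ (S ∪ T) + ρ (S ∩ T) ≤ ρ S + ρ T)
    (m δ : ℕ) (X : ι → Finset α)
    (hX : ∀ J : Finset ι, J.card + m ≤ ρ (J.biUnion X) + δ) :
    ∃ Y : ι → Finset α, (∀ i, Y i ⊆ X i) ∧ (∀ i, (Y i).card ≤ 1) ∧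
      Fintype.card ι + m ≤ ρ (Finset.univ.biUnion Y) + δ := by
  obtain ⟨N, hN⟩ : ∃ N, ∑ i, (X i).card = N := ⟨_, rfl⟩
  induction N using Nat.strong_induction_on generalizing X with
  | _ N ih =>
  by_cases hall : ∀ i, (X i).card ≤ 1
  · exact ⟨X, fun i => Finset.Subset.refl _, hall, by simpa using hX Finset.univ⟩
  · push Not at hall
    obtain ⟨i0, hi0⟩ := hall
    obtain ⟨x, hx, y, hy, hxy⟩ := Finset.one_lt_card.mp hi0
    have step : ∀ z ∈ X i0, (∀ J : Finset ι, J.card + m ≤
        ρ (J.biUnion (Function.update X i0 ((X i0).erase z))) + δ) →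
        ∃ Y : ι → Finset α, (∀ i, Y i ⊆ X i) ∧ (∀ i, (Y i).card ≤ 1) ∧
          Fintype.card ι + m ≤ ρ (Finset.univ.biUnion Y) + δ := by
      intro z hz hcond
      have hlt : ∑ i, (Function.update X i0 ((X i0).erase z) i).card < N := by
        rw [← hN]
        apply Finset.sum_lt_sum
        · intro i _
          by_cases h : i = i0
          · subst h; rw [Function.update_self]; exact Finset.card_erase_le
          · rw [Function.update_of_ne h]
        · exact ⟨i0, Finset.mem_univ _, by
            rw [Function.update_self]; exact Finset.card_erase_lt_of_mem hz⟩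
      obtain ⟨Y, hY1, hY2, hY3⟩ := ih _ hlt _ hcond rfl
      refine ⟨Y, fun i => (hY1 i).trans ?_, hY2, hY3⟩
      by_cases h : i = i0
      · subst h; rw [Function.update_self]; exact Finset.erase_subset _ _
      · rw [Function.update_of_ne h]
    by_contra hcon
    have hnx : ¬ (∀ J : Finset ι, J.card + m ≤
        ρ (J.biUnion (Function.update X i0 ((X i0).erase x))) + δ) := fun h => hcon (step x hx h)
    have hny : ¬ (∀ J : Finset ι, J.card + m ≤
        ρ (J.biUnion (Function.update X i0 ((X i0).erase y))) + δ) := fun h => hcon (step y hy h)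
    push Not at hnx hny
    obtain ⟨J, hJ⟩ := hnx
    obtain ⟨K, hK⟩ := hny
    have hmem : ∀ (z : α) (L : Finset ι),
        ρ (L.biUnion (Function.update X i0 ((X i0).erase z))) + δ < L.card + m → i0 ∈ L := by
      intro z L hL
      by_contra hni
      have h1 : L.biUnion (Function.update X i0 ((X i0).erase z)) = L.biUnion X := by
        apply Finset.biUnion_congr rfl
        intro i hi
        rw [Function.update_of_ne (ne_of_mem_of_not_mem hi hni)]
      rw [h1] at hL
      have := hX L
      omega
    have hiJ := hmem x J hJ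
    have hiK := hmem y K hK
    obtain ⟨S, hS⟩ : ∃ S, S = J.biUnion (Function.update X i0 ((X i0).erase x)) := ⟨_, rfl⟩
    obtain ⟨T, hT⟩ : ∃ T, T = K.biUnion (Function.update X i0 ((X i0).erase y)) := ⟨_, rfl⟩
    rw [← hS] at hJ
    rw [← hT] at hK
    have hSne : ∀ i ∈ J, i ≠ i0 → ∀ z ∈ X i, z ∈ S := by
      intro i hi hne z hz
      rw [hS, Finset.mem_biUnion]
      exact ⟨i, hi, by rw [Function.update_of_ne hne]; exact hz⟩
    have hTne : ∀ i ∈ K, i ≠ i0 → ∀ z ∈ X i, z ∈ T := by
      intro i hi hne z hz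
      rw [hT, Finset.mem_biUnion]
      exact ⟨i, hi, by rw [Function.update_of_ne hne]; exact hz⟩
    have hU : (J ∪ K).biUnion X ⊆ S ∪ T := by
      intro z hz
      rw [Finset.mem_biUnion] at hz
      obtain ⟨i, hi, hzi⟩ := hz
      rw [Finset.mem_union]
      by_cases hii : i = i0
      · subst hii
        by_cases hzx : z = x
        · right
          rw [hT, Finset.mem_biUnion]
          refine ⟨i, hiK, ?_⟩
          rw [Function.update_self, Finset.mem_erase]
          exact ⟨by rw [hzx]; exact hxy, hzi⟩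
        · left
          rw [hS, Finset.mem_biUnion]
          refine ⟨i, hiJ, ?_⟩
          rw [Function.update_self, Finset.mem_erase]
          exact ⟨hzx, hzi⟩
      · rcases Finset.mem_union.mp hi with h | h
        · exact Or.inl (hSne i h hii z hzi)
        · exact Or.inr (hTne i h hii z hzi)
    have hI : ((J ∩ K).erase i0).biUnion X ⊆ S ∩ T := by
      intro z hz
      rw [Finset.mem_biUnion] at hz
      obtain ⟨i, hi, hzi⟩ := hz
      rw [Finset.mem_erase, Finset.mem_inter] at hi
      rw [Finset.mem_inter]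
      exact ⟨hSne i hi.2.1 hi.1 z hzi, hTne i hi.2.2 hi.1 z hzi⟩
    have h1 := hX (J ∪ K)
    have h2 := hX ((J ∩ K).erase i0)
    have h3 := hsub S T
    have h4 := hmono _ _ hU
    have h5 := hmono _ _ hI
    have h6 := Finset.card_union_add_card_inter J K
    have h7 : i0 ∈ J ∩ K := Finset.mem_inter.mpr ⟨hiJ, hiK⟩
    have h8 := Finset.card_erase_of_mem h7
    have h9 : 1 ≤ (J ∩ K).card := Finset.card_pos.mpr ⟨i0, h7⟩
    omega

end CayK25
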