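import Pool.Agent.Helper579.Cayley.Defs

/-! # Cayley graphs and small complete bipartite graphs: definitions (MP_a61cf6_co) -/

namespace CayK25



theorem rank_sub_normal {P : Type*} [Group P] (M A : Subgroup P) (hM : ∀ g : P, g ^ 2 ∈ M)
    (h : M ≤ A) : A.Normal := by
  refine ⟨fun a ha g => ?_⟩
  have h1 : g * a * g⁻¹ = (g * a) ^ 2 * a⁻¹ * (g ^ 2)⁻¹ := by
    rw [pow_two, pow_two]
    group
  rw [h1]
  exact A.mul_mem (A.mul_mem (h (hM _)) (A.inv_mem ha)) (A.inv_mem (h (hM _)))

theorem rank_sub_card {P : Type*} [Group P] (A B : Subgroup P) [B.Normal] :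
    Nat.card (A ⊔ B : Subgroup P) * Nat.card (B ⊓ A : Subgroup P) =
      Nat.card B * Nat.card A := by
  have h1 : Nat.card B * B.relIndex A = Nat.card (A ⊔ B : Subgroup P) := by
    rw [← Subgroup.relIndex_sup_right, ← Subgroup.relIndex_bot_left, ← Subgroup.relIndex_bot_left,
      Subgroup.relIndex_mul_relIndex _ _ _ bot_le le_sup_right]
  have h2 : Nat.card (B ⊓ A : Subgroup P) * B.relIndex A = Nat.card A := by
    rw [← Subgroup.inf_relIndex_right, ← Subgroup.relIndex_bot_left, ← Subgroup.relIndex_bot_left,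
      Subgroup.relIndex_mul_relIndex _ _ _ bot_le inf_le_right]
  rw [← h1, ← h2]
  ring

theorem rank_sub_mono {P : Type*} [Group P] [Finite P] (A B : Subgroup P) (h : A ≤ B) :
    padicValNat 2 (Nat.card A) ≤ padicValNat 2 (Nat.card B) := by
  rw [← padicValNat_dvd_iff_le Nat.card_pos.ne']
  exact (pow_padicValNat_dvd).trans (Subgroup.card_dvd_of_le h)

/-- The rank function of subsets of a finite 2-group modulo a subgroup containing all squares. -/
theorem rank_sub {P : Type*} [Group P] [Finite P] [DecidableEq P] (hP : IsPGroup 2 P)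
    (M : Subgroup P) (hM : ∀ g : P, g ^ 2 ∈ M) (S T : Finset P) :
    padicValNat 2 (Nat.card (Subgroup.closure ((M : Set P) ∪ ↑(S ∪ T)))) +
      padicValNat 2 (Nat.card (Subgroup.closure ((M : Set P) ∪ ↑(S ∩ T)))) ≤
    padicValNat 2 (Nat.card (Subgroup.closure ((M : Set P) ∪ ↑S))) +
      padicValNat 2 (Nat.card (Subgroup.closure ((M : Set P) ∪ ↑T))) := by
  classical
  set A := Subgroup.closure ((M : Set P) ∪ ↑S) with hA
  set B := Subgroup.closure ((M : Set P) ∪ ↑T) with hB
  have hMB : M ≤ B := fun x hx => Subgroup.subset_closure (Or.inl hx)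
  haveI : B.Normal := rank_sub_normal M B hM hMB
  have h1 : Subgroup.closure ((M : Set P) ∪ ↑(S ∪ T)) = A ⊔ B := by
    rw [hA, hB, ← Subgroup.closure_union]
    congr 1
    ext x
    simp only [Set.mem_union, Finset.coe_union]
    tauto
  have h2 : Subgroup.closure ((M : Set P) ∪ ↑(S ∩ T)) ≤ B ⊓ A := by
    rw [le_inf_iff, hA, hB]
    constructor
    · apply Subgroup.closure_mono
      apply Set.union_subset_union_right
      intro x hx
      exact (Finset.mem_inter.1 hx).2
    · apply Subgroup.closure_mono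
      apply Set.union_subset_union_right
      intro x hx
      exact (Finset.mem_inter.1 hx).1
  rw [h1]
  have h3 := rank_sub_mono _ _ h2
  have h4 := congrArg (padicValNat 2) (rank_sub_card A B)
  rw [padicValNat.mul Nat.card_pos.ne' Nat.card_pos.ne',
    padicValNat.mul Nat.card_pos.ne' Nat.card_pos.ne'] at h4
  omega

end CayK25
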