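import Pool.Agent.Helper579.Cayley.Defs
import Pool.Agent.Helper579.Cayley.P_index_A
import Pool.Agent.Helper579.Cayley.P_rado
import Pool.Agent.Helper579.Cayley.P_rank_sub

/-! # Cayley graphs and small complete bipartite graphs: definitions (MP_a61cf6_co) -/

namespace CayK25



theorem balanced_card {P : Type*} [Group P] [Finite P] (hP : IsPGroup 2 P) (U : Subgroup P) :
    Nat.card U = 2 ^ padicValNat 2 (Nat.card U) := by
  have hU : IsPGroup 2 U := hP.to_subgroup U
  obtain ⟨n, hn⟩ := IsPGroup.iff_card.1 hU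
  rw [hn, padicValNat.prime_pow]

theorem balanced_mono {P : Type*} [Group P] [Finite P] (hP : IsPGroup 2 P) (U V : Subgroup P)
    (h : U ≤ V) : padicValNat 2 (Nat.card U) ≤ padicValNat 2 (Nat.card V) := by
  have h1 : Nat.card U ≤ Nat.card V := Nat.card_mono (Set.toFinite _) h
  rw [balanced_card hP U, balanced_card hP V] at h1
  exact (Nat.pow_le_pow_iff_right (by norm_num)).1 h1

/-- A finite 2-group is generated, modulo a subgroup containing all squares, by elements among
which every nontrivial square occurs at most twice. -/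
theorem balanced {P : Type*} [Group P] [Finite P] [DecidableEq P] (hP : IsPGroup 2 P)
    (M : Subgroup P) (hM : ∀ g : P, g ^ 2 ∈ M) :
    ∃ X : Finset P, Subgroup.closure ((M : Set P) ∪ ↑X) = ⊤ ∧
      ∀ a : P, a ≠ 1 → (X.filter (fun x => x ^ 2 = a)).card ≤ 2 := by
  classical
  haveI : Fintype P := Fintype.ofFinite P
  set ρ : Finset P → ℕ := fun S =>
    padicValNat 2 (Nat.card (Subgroup.closure ((M : Set P) ∪ ↑S))) with hρ
  set m : ℕ := padicValNat 2 (Nat.card M) with hm
  set t : ℕ := padicValNat 2 (Nat.card (⊤ : Subgroup P)) with ht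
  have hmt : m ≤ t := balanced_mono hP M ⊤ le_top
  set d : ℕ := t - m with hd
  have htd : t = m + d := by omega
  let Q : Type _ := {a : P // a ≠ 1}
  let X : (Q × Fin 2) ⊕ Fin d → Finset P := fun i =>
    match i with
    | Sum.inl p => Finset.univ.filter (fun g => g ^ 2 = p.1.1)
    | Sum.inr _ => Finset.univ.filter (fun g => g ^ 2 = 1)
  have hXl : ∀ (a : Q) (j : Fin 2) (g : P), g ∈ X (Sum.inl (a, j)) ↔ g ^ 2 = a.1 := by
    intro a j g
    show g ∈ Finset.univ.filter (fun g => g ^ 2 = a.1) ↔ _
    simp
  have hXr : ∀ (k : Fin d) (g : P), g ∈ X (Sum.inr k) ↔ g ^ 2 = 1 := by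
    intro k g
    show g ∈ Finset.univ.filter (fun g => g ^ 2 = 1) ↔ _
    simp
  have hcl : ∀ S : Finset P, M ≤ Subgroup.closure ((M : Set P) ∪ ↑S) := fun S g hg =>
    Subgroup.subset_closure (Or.inl hg)
  have hmono : ∀ S T, S ⊆ T → ρ S ≤ ρ T := by
    intro S T h
    refine balanced_mono hP _ _ (Subgroup.closure_mono ?_)
    exact Set.union_subset_union_right _ (by exact_mod_cast h)
  have hsub : ∀ S T, ρ (S ∪ T) + ρ (S ∩ T) ≤ ρ S + ρ T := fun S T => rank_sub hP M hM S T
  have hcard : Fintype.card ((Q × Fin 2) ⊕ Fin d) = 2 * Fintype.card Q + d := by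
    rw [Fintype.card_sum, Fintype.card_prod, Fintype.card_fin, Fintype.card_fin, mul_comm]
  have hX : ∀ J : Finset ((Q × Fin 2) ⊕ Fin d),
      J.card + m ≤ ρ (J.biUnion X) + 2 * Fintype.card Q := by
    intro J
    by_cases hJ : ∃ k : Fin d, Sum.inr k ∈ J
    · obtain ⟨k, hk⟩ := hJ
      set A' : Finset Q := Finset.univ.filter (fun a => ∀ j : Fin 2, Sum.inl (a, j) ∉ J) with hA'
      set A : Finset P := A'.image Subtype.val with hA
      have hAc : A.card = A'.card := Finset.card_image_of_injective _ Subtype.val_injective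
      set U : Subgroup P := Subgroup.closure ((M : Set P) ∪ ↑(J.biUnion X)) with hU
      have hUX : ∀ g ∈ J.biUnion X, g ∈ U := fun g hg =>
        Subgroup.subset_closure (Or.inr (by exact_mod_cast hg))
      have hsq : ∀ g : P, g ^ 2 ∈ U := fun g => hcl _ (hM g)
      have h1A : (1 : P) ∉ A := by
        intro h1
        obtain ⟨a, _, ha⟩ := Finset.mem_image.1 h1
        exact a.2 ha
      have hgA : ∀ g : P, g ∉ U → g ^ 2 ∈ A := by
        intro g hg
        by_cases hg1 : g ^ 2 = 1
        · exfalso
          apply hg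
          apply hUX
          exact Finset.mem_biUnion.2 ⟨_, hk, (hXr k g).2 hg1⟩
        · refine Finset.mem_image.2 ⟨⟨g ^ 2, hg1⟩, ?_, rfl⟩
          rw [hA', Finset.mem_filter]
          refine ⟨Finset.mem_univ _, fun j hj => ?_⟩
          apply hg
          apply hUX
          exact Finset.mem_biUnion.2 ⟨_, hj, (hXl _ j g).2 rfl⟩
      have hind := index_A hP U hsq A h1A hgA
      have hcU : Nat.card U = 2 ^ ρ (J.biUnion X) := balanced_card hP U
      have hcT : Nat.card P = 2 ^ t := by
        have h1 := balanced_card hP (⊤ : Subgroup P)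
        rw [Subgroup.card_top] at h1
        rw [ht, Subgroup.card_top]
        exact h1
      have h2 : t ≤ ρ (J.biUnion X) + 2 * A.card := by
        have h3 := Subgroup.card_mul_index U
        have h4 : 2 ^ t ≤ 2 ^ (ρ (J.biUnion X) + 2 * A.card) := by
          rw [← hcT, ← h3, hcU, pow_add, pow_mul]
          exact Nat.mul_le_mul_left _ (by norm_num; exact hind)
        exact (Nat.pow_le_pow_iff_right (by norm_num)).1 h4
      have h5 : J.card + 2 * A'.card ≤ 2 * Fintype.card Q + d := by
        set B : Finset ((Q × Fin 2) ⊕ Fin d) :=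
          (A' ×ˢ (Finset.univ : Finset (Fin 2))).image Sum.inl with hB
        have hBc : B.card = 2 * A'.card := by
          rw [hB, Finset.card_image_of_injective _ Sum.inl_injective, Finset.card_product,
            Finset.card_univ, Fintype.card_fin, mul_comm]
        have hdis : Disjoint J B := by
          rw [Finset.disjoint_left]
          intro x hx hxB
          obtain ⟨⟨a, j⟩, haj, rfl⟩ := Finset.mem_image.1 hxB
          rw [Finset.mem_product] at haj
          have h6 := haj.1
          rw [hA', Finset.mem_filter] at h6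
          exact h6.2 j hx
        rw [← hcard, ← hBc, ← Finset.card_union_of_disjoint hdis]
        exact Finset.card_le_univ _
      omega
    · have h1 : J ⊆ (Finset.univ : Finset (Q × Fin 2)).image Sum.inl := by
        intro x hx
        rcases x with p | k
        · exact Finset.mem_image.2 ⟨p, Finset.mem_univ _, rfl⟩
        · exact absurd ⟨k, hx⟩ hJ
      have h2 : J.card ≤ 2 * Fintype.card Q := by
        refine (Finset.card_le_card h1).trans ?_
        rw [Finset.card_image_of_injective _ Sum.inl_injective, Finset.card_univ,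
          Fintype.card_prod, Fintype.card_fin, mul_comm]
      have h3 : m ≤ ρ (J.biUnion X) := balanced_mono hP M _ (hcl _)
      omega
  obtain ⟨Y, hY1, hY2, hY3⟩ := rado ρ hmono hsub m (2 * Fintype.card Q) X hX
  refine ⟨Finset.univ.biUnion Y, ?_, ?_⟩
  · have h1 : t ≤ ρ (Finset.univ.biUnion Y) := by
      rw [hcard] at hY3
      omega
    apply Subgroup.eq_top_of_le_card
    have h2 := balanced_card hP (Subgroup.closure ((M : Set P) ∪ ↑(Finset.univ.biUnion Y)))
    have h3 := balanced_card hP (⊤ : Subgroup P)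
    rw [Subgroup.card_top] at h3
    rw [h2, h3]
    refine Nat.pow_le_pow_right (by norm_num) ?_
    rw [ht, Subgroup.card_top] at h1
    exact h1
  · intro a ha
    have h1 : (Finset.univ.biUnion Y).filter (fun x => x ^ 2 = a) ⊆
        Y (Sum.inl (⟨a, ha⟩, 0)) ∪ Y (Sum.inl (⟨a, ha⟩, 1)) := by
      intro x hx
      rw [Finset.mem_filter, Finset.mem_biUnion] at hx
      obtain ⟨⟨i, _, hi⟩, hxa⟩ := hx
      rcases i with ⟨b, j⟩ | k
      · have h2 := (hXl b j x).1 (hY1 _ hi)
        have h3 : b = ⟨a, ha⟩ := Subtype.ext (h2.symm.trans hxa)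
        subst h3
        rw [Finset.mem_union]
        fin_cases j
        · exact Or.inl hi
        · exact Or.inr hi
      · have h2 := (hXr k x).1 (hY1 _ hi)
        exact absurd (hxa.symm.trans h2) ha
    have h2 := Finset.card_le_card h1
    have h3 := Finset.card_union_le (Y (Sum.inl (⟨a, ha⟩, 0))) (Y (Sum.inl (⟨a, ha⟩, 1)))
    have h4 := hY2 (Sum.inl (⟨a, ha⟩, 0))
    have h5 := hY2 (Sum.inl (⟨a, ha⟩, 1))
    omega

end CayK25
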