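import Pool.Agent.Helper579.Cayley.Defs

/-! # Cayley graphs and small complete bipartite graphs: definitions (MP_a61cf6_co) -/

namespace CayK25



/-- At most four elements of `H ∪ H⁻¹` have the same nontrivial square when `H` consists of
elements of odd order and of elements of a 2-group among which every nontrivial square occurs at
most twice. -/
theorem color_bound {G : Type*} [Group G] [Finite G] [DecidableEq G] (X : Finset G)
    (hX2 : ∀ x ∈ X, ∃ k : ℕ, orderOf x = 2 ^ k)
    (hX : ∀ a : G, a ≠ 1 → (X.filter (fun x => x ^ 2 = a)).card ≤ 2)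
    (a : G) (ha : a ≠ 1) (s : Fin 5 → G) (hs : Function.Injective s)
    (hsH : ∀ i, (Odd (orderOf (s i)) ∨ s i ∈ X ∨ (s i)⁻¹ ∈ X)) : ¬ ∀ i, s i ^ 2 = a := by
  intro h
  by_cases hodd : ∃ i, Odd (orderOf (s i))
  · obtain ⟨i, hi⟩ := hodd
    have hao : Odd (orderOf a) := by
      have h1 : orderOf a ∣ orderOf (s i) := by
        rw [← h i]; exact orderOf_pow_dvd 2
      exact Odd.of_dvd_nat hi h1
    have key : ∀ k : ℕ, ¬ orderOf a ∣ 2 ^ k := by
      intro k h1
      have h2 : orderOf a = 1 :=
        Nat.Coprime.eq_one_of_dvd (Nat.Coprime.pow_right k (Nat.coprime_two_right.mpr hao)) h1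
      exact ha (orderOf_eq_one_iff.mp h2)
    have hall : ∀ j, Odd (orderOf (s j)) := by
      intro j
      rcases hsH j with hj | hj | hj
      · exact hj
      · exfalso
        obtain ⟨k, hk⟩ := hX2 _ hj
        apply key k
        rw [← hk, ← h j]
        exact orderOf_pow_dvd 2
      · exfalso
        obtain ⟨k, hk⟩ := hX2 _ hj
        apply key k
        rw [orderOf_inv] at hk
        rw [← hk, ← h j]
        exact orderOf_pow_dvd 2
    have hval : ∀ j, s j = a ^ ((orderOf a + 1) / 2) := by
      intro j
      have hord : orderOf (s j) = orderOf a := by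
        rw [← h j]
        exact (Nat.Coprime.orderOf_pow (Nat.coprime_two_right.mpr (hall j))).symm
      have hev : 2 * ((orderOf a + 1) / 2) = orderOf a + 1 := by
        obtain ⟨m, hm⟩ := hao
        omega
      rw [← h j, ← pow_mul]
      have h3 : 2 * ((orderOf (s j ^ 2) + 1) / 2) = orderOf (s j) + 1 := by
        rw [h j, hord]; exact hev
      rw [h3, pow_succ, pow_orderOf_eq_one, one_mul]
    have : s 0 = s 1 := by rw [hval 0, hval 1]
    exact absurd (hs this) (by decide)
  · push Not at hodd
    have hsub : Finset.univ.image s ⊆ X.filter (fun x => x ^ 2 = a) ∪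
        (X.filter (fun x => x ^ 2 = a⁻¹)).image (fun x => x⁻¹) := by
      intro y hy
      obtain ⟨i, _, rfl⟩ := Finset.mem_image.mp hy
      rw [Finset.mem_union]
      rcases hsH i with hj | hj | hj
      · exact absurd hj (hodd i)
      · left
        exact Finset.mem_filter.mpr ⟨hj, h i⟩
      · right
        refine Finset.mem_image.mpr ⟨(s i)⁻¹, Finset.mem_filter.mpr ⟨hj, ?_⟩, inv_inv _⟩
        rw [inv_pow, h i]
    have h5 : (Finset.univ.image s).card = 5 := by
      rw [Finset.card_image_of_injective _ hs]; simp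
    have h1 := Finset.card_le_card hsub
    have h2 := Finset.card_union_le (X.filter (fun x => x ^ 2 = a))
      ((X.filter (fun x => x ^ 2 = a⁻¹)).image (fun x => x⁻¹))
    have h3 := Finset.card_image_le (s := X.filter (fun x => x ^ 2 = a⁻¹)) (f := fun x => x⁻¹)
    have h4 := hX a ha
    have h6 := hX a⁻¹ (inv_ne_one.mpr ha)
    omega

end CayK25
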