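import Pool.Agent.Helper579.Cayley.Defs

/-! # Cayley graphs and small complete bipartite graphs: definitions (MP_a61cf6_co) -/

namespace CayK25



/-- Elements of odd order together with suitable elements of a Sylow 2-subgroup generate. -/
theorem frattini_odd {G : Type*} [Group G] [Finite G] (P : Sylow 2 G) :
    ∃ M : Subgroup P, (∀ p : P, p ^ 2 ∈ M) ∧
      ∀ X : Set P, Subgroup.closure ((M : Set P) ∪ X) = ⊤ →
        Subgroup.closure ({g : G | Odd (orderOf g)} ∪ ((↑) : P → G) '' X) = ⊤ := by
  classical
  haveI : Fact (Nat.Prime 2) := ⟨Nat.prime_two⟩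
  let O : Set G := {g : G | Odd (orderOf g)}
  let M0 : Subgroup G := Subgroup.closure (O ∪ Set.range fun g : G => g ^ 2)
  refine ⟨M0.subgroupOf P, ?_, ?_⟩
  · intro p
    rw [Subgroup.mem_subgroupOf]
    exact Subgroup.subset_closure (Or.inr ⟨(p : G), rfl⟩)
  · intro X hX
    by_contra hD
    set D : Subgroup G := Subgroup.closure ({g : G | Odd (orderOf g)} ∪ ((↑) : P → G) '' X) with hDdef
    let N : Subgroup G := Subgroup.normalClosure O
    have hNO : ∀ g ∈ O, g ∈ N := fun g hg => Subgroup.subset_normalClosure hg
    have hND : N ≤ D := by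
      change Subgroup.closure (Group.conjugatesOfSet O) ≤ D
      rw [Subgroup.closure_le]
      intro g hg
      rw [Group.mem_conjugatesOfSet_iff] at hg
      obtain ⟨a, ha, hconj⟩ := hg
      obtain ⟨c, hc⟩ := isConj_iff.mp hconj
      apply Subgroup.subset_closure
      left
      have : orderOf g = orderOf a := by
        rw [← hc, ← MulAut.conj_apply]
        exact MulEquiv.orderOf_eq (MulAut.conj c) a
      change Odd (orderOf g)
      rw [this]
      exact ha
    have hp : IsPGroup 2 (G ⧸ N) := by
      intro q
      obtain ⟨g, rfl⟩ := QuotientGroup.mk_surjective q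
      obtain ⟨k, m, hm, hkm⟩ := Nat.exists_eq_two_pow_mul_odd (orderOf_pos g).ne'
      refine ⟨k, ?_⟩
      rw [← QuotientGroup.mk_pow, QuotientGroup.eq_one_iff]
      apply hNO
      change Odd (orderOf (g ^ 2 ^ k))
      rw [orderOf_pow_of_dvd (by positivity) (Dvd.intro m hkm.symm), hkm,
        Nat.mul_div_cancel_left _ (by positivity)]
      exact hm
    let D' : Subgroup (G ⧸ N) := D.map (QuotientGroup.mk' N)
    have hD' : D' ≠ ⊤ := by
      intro h
      apply hD
      rw [Subgroup.eq_top_iff']
      intro g
      have : (QuotientGroup.mk' N g) ∈ D' := by rw [h]; trivial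
      obtain ⟨d, hd, hdg⟩ := this
      have h1 : d⁻¹ * g ∈ N := by
        rw [← QuotientGroup.eq]
        exact hdg
      have := D.mul_mem hd (hND h1)
      simpa using this
    obtain ⟨a, ha⟩ := (IsPGroup.iff_card).mp hp
    obtain ⟨b, hb⟩ := (IsPGroup.iff_card).mp (hp.to_subgroup D')
    have hlt : Nat.card D' < Nat.card (G ⧸ N) := by
      refine lt_of_le_of_ne (Subgroup.card_le_card_group D') ?_
      intro h
      exact hD' (Subgroup.eq_top_of_card_eq D' h)
    have hba : b < a := by
      rw [ha, hb] at hlt
      exact (Nat.pow_lt_pow_iff_right (by norm_num)).mp hlt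
    obtain ⟨E', hE', hDE'⟩ := Sylow.exists_subgroup_card_pow_prime_le 2
      (G := G ⧸ N) (m := a - 1) (by rw [ha]; exact pow_dvd_pow 2 (by omega)) D' hb (by omega)
    have hidx : E'.index = 2 := by
      have h1 := E'.card_mul_index
      rw [hE', ha] at h1
      have h2 : 2 ^ a = 2 ^ (a - 1) * 2 := by
        rw [← pow_succ]
        congr 1
        omega
      rw [h2] at h1
      exact Nat.eq_of_mul_eq_mul_left (by positivity) h1
    let E : Subgroup G := E'.comap (QuotientGroup.mk' N)
    have hEidx : E.index = 2 := by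
      rw [← hidx]
      exact Subgroup.index_comap_of_surjective E' (QuotientGroup.mk'_surjective N)
    have hDE : D ≤ E := Subgroup.map_le_iff_le_comap.mp hDE'
    have hM0E : M0 ≤ E := by
      rw [Subgroup.closure_le]
      rintro g (hg | ⟨h, rfl⟩)
      · exact hDE (Subgroup.subset_closure (Or.inl hg))
      · exact Subgroup.sq_mem_of_index_two hEidx h
    have hPE : (P : Subgroup G) ≤ E := by
      rw [← Subgroup.subgroupOf_eq_top, eq_top_iff, ← hX, Subgroup.closure_le]
      rintro p (hp' | hp')
      · exact hM0E hp'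
      · exact hDE (Subgroup.subset_closure (Or.inr ⟨p, hp', rfl⟩))
    have hdvd := Subgroup.index_dvd_of_le hPE
    rw [hEidx] at hdvd
    exact P.not_dvd_index hdvd

end CayK25
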