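import Pool.Agent.Helper579.Cayley.Defs

/-! # Cayley graphs and small complete bipartite graphs: definitions (MP_a61cf6_co) -/

namespace CayK25



/-- In the Cayley graph of an irredundant generating set a `K_{2,5}` comes from five equal
squares. -/
theorem no_k25 {G : Type*} [Group G] (H : Set G)
    (hirr : ∀ h ∈ H, h ∉ Subgroup.closure (H \ {h}))
    (hcol : ∀ a : G, a ≠ 1 → ∀ s : Fin 5 → G, Function.Injective s →
      (∀ i, s i ∈ H ∨ (s i)⁻¹ ∈ H) → ¬ ∀ i, s i ^ 2 = a)
    (u v : G) (huv : u ≠ v) (w : Fin 5 → G) (hw : Function.Injective w)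
    (hu : ∀ i, (cay G H).Adj u (w i)) (hv : ∀ i, (cay G H).Adj v (w i)) : False := by
  classical
  have irr' : ∀ (h : G) (S : Set G), h ∈ H → S ⊆ H → h ∉ S → h ∉ Subgroup.closure S := by
    intro h S hh hS hn hm
    refine hirr h hh (Subgroup.closure_mono ?_ hm)
    intro z hz
    exact ⟨hS hz, fun e => hn (by rw [← (show z = h from e)]; exact hz)⟩
  set s : Fin 5 → G := fun i => w i * u⁻¹ with hsdef
  set t : Fin 5 → G := fun i => w i * v⁻¹ with htdef
  set a : G := v * u⁻¹ with hadef
  have ha : a ≠ 1 := by
    intro h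
    exact huv (mul_inv_eq_one.1 h).symm
  have hst : ∀ i, s i = t i * a := by
    intro i; simp only [hsdef, htdef, hadef]; group
  have hsinj : Function.Injective s := by
    intro i j h
    exact hw (mul_right_cancel h)
  have hsH : ∀ i, s i ∈ H ∨ (s i)⁻¹ ∈ H := by
    intro i
    rcases (hu i).2 with h | h
    · exact Or.inl h
    · right; simpa [hsdef] using h
  have htH : ∀ i, t i ∈ H ∨ (t i)⁻¹ ∈ H := by
    intro i
    rcases (hv i).2 with h | h
    · exact Or.inl h
    · right; simpa [htdef] using h
  have hx : ∀ i, ∃ x ∈ H, s i = x ∨ s i = x⁻¹ := by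
    intro i
    rcases hsH i with h | h
    · exact ⟨_, h, Or.inl rfl⟩
    · exact ⟨_, h, Or.inr (by simp)⟩
  have hy : ∀ i, ∃ y ∈ H, t i = y ∨ t i = y⁻¹ := by
    intro i
    rcases htH i with h | h
    · exact ⟨_, h, Or.inl rfl⟩
    · exact ⟨_, h, Or.inr (by simp)⟩
  choose x hxH hx using hx
  choose y hyH hy using hy
  have hxm : ∀ i (K : Subgroup G), s i ∈ K ↔ x i ∈ K := by
    intro i K
    rcases hx i with h | h <;> rw [h]
    exact K.inv_mem_iff
  have hym : ∀ i (K : Subgroup G), t i ∈ K ↔ y i ∈ K := by
    intro i K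
    rcases hy i with h | h <;> rw [h]
    exact K.inv_mem_iff
  have hne : ∀ i, s i ≠ t i := by
    intro i h
    have := hst i
    rw [h] at this
    exact ha (mul_eq_left.1 this.symm)
  have hsq : ∀ i, x i = y i → s i ^ 2 = a := by
    intro i h
    have h1 : t i = (s i)⁻¹ := by
      rcases hx i with h2 | h2 <;> rcases hy i with h3 | h3
      · exact absurd (h2.trans (h.trans h3.symm)) (hne i)
      · rw [h3, h2, h]
      · rw [h3, h2, h, inv_inv]
      · exact absurd (h2.trans ((congrArg _ h).trans h3.symm)) (hne i)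
    have h2 := hst i
    rw [h1] at h2
    have h3 : a = s i * s i := by
      rw [eq_inv_mul_iff_mul_eq] at h2
      exact h2.symm
    rw [h3, pow_two]
  by_cases hc : ∃ i0, x i0 = y i0
  · obtain ⟨i0, hi0⟩ := hc
    have haK : a ∈ Subgroup.closure ({x i0} : Set G) := by
      rw [← hsq i0 hi0]
      exact Subgroup.pow_mem _ ((hxm i0 _).2 (Subgroup.subset_closure (Set.mem_singleton _))) 2
    have hall : ∀ j, x j = y j := by
      intro j
      by_contra hj
      by_cases hh : x j = x i0
      · have h1 : t j = s j * a⁻¹ := by rw [hst j]; group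
        have h2 : t j ∈ Subgroup.closure ({x i0} : Set G) := by
          rw [h1]
          refine Subgroup.mul_mem _ ((hxm j _).2 ?_) (Subgroup.inv_mem _ haK)
          rw [hh]; exact Subgroup.subset_closure (Set.mem_singleton _)
        refine irr' (y j) {x i0} (hyH j) ?_ ?_ ((hym j _).1 h2)
        · intro z hz
          rw [Set.mem_singleton_iff.1 hz]; exact hxH i0
        · intro hz
          exact hj (hh.trans (Set.mem_singleton_iff.1 hz).symm)
      · have h2 : s j ∈ Subgroup.closure ({y j, x i0} : Set G) := by
          rw [hst j]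
          refine Subgroup.mul_mem _ ((hym j _).2 (Subgroup.subset_closure (by simp))) ?_
          exact Subgroup.closure_mono (by intro z hz; simp at hz; simp [hz]) haK
        refine irr' (x j) {y j, x i0} (hxH j) ?_ ?_ ((hxm j _).1 h2)
        · intro z hz
          rcases hz with hz | hz
          · rw [hz]; exact hyH j
          · rw [Set.mem_singleton_iff.1 hz]; exact hxH i0
        · intro hz
          rcases hz with hz | hz
          · exact hj hz
          · exact hh (Set.mem_singleton_iff.1 hz)
    exact hcol a ha s hsinj hsH (fun i => hsq i (hall i))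
  · push Not at hc
    have haK : a ∈ Subgroup.closure ({x 0, y 0} : Set G) := by
      have h1 : a = (t 0)⁻¹ * s 0 := by rw [hst 0]; group
      rw [h1]
      exact Subgroup.mul_mem _ (Subgroup.inv_mem _ ((hym 0 _).2 (Subgroup.subset_closure
        (by simp)))) ((hxm 0 _).2 (Subgroup.subset_closure (by simp)))
    have hmem : ∀ j, x j = x 0 ∨ x j = y 0 := by
      intro j
      by_contra hj
      push Not at hj
      have h2 : s j ∈ Subgroup.closure ({y j, x 0, y 0} : Set G) := by
        rw [hst j]
        refine Subgroup.mul_mem _ ((hym j _).2 (Subgroup.subset_closure (by simp))) ?_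
        exact Subgroup.closure_mono (Set.subset_insert _ _) haK
      refine irr' (x j) {y j, x 0, y 0} (hxH j) ?_ ?_ ((hxm j _).1 h2)
      · intro z hz
        rcases hz with hz | hz | hz
        · rw [hz]; exact hyH j
        · rw [hz]; exact hxH 0
        · rw [Set.mem_singleton_iff.1 hz]; exact hyH 0
      · intro hz
        rcases hz with hz | hz | hz
        · exact hc j hz
        · exact hj.1 hz
        · exact hj.2 (Set.mem_singleton_iff.1 hz)
    have hsm : ∀ j, s j ∈ ({x 0, (x 0)⁻¹, y 0, (y 0)⁻¹} : Finset G) := by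
      intro j
      rcases hmem j with h | h <;> rcases hx j with h2 | h2 <;> rw [h2, h] <;> simp
    have hcard : (Finset.univ.image s).card ≤ ({x 0, (x 0)⁻¹, y 0, (y 0)⁻¹} : Finset G).card := by
      apply Finset.card_le_card
      intro z hz
      obtain ⟨j, _, rfl⟩ := Finset.mem_image.1 hz
      exact hsm j
    rw [Finset.card_image_of_injective _ hsinj] at hcard
    have h4 : ({x 0, (x 0)⁻¹, y 0, (y 0)⁻¹} : Finset G).card ≤ 4 := Finset.card_le_four
    simp at hcard
    omega

end CayK25
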