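import Pool.Agent.Helper579.Cayley.Defs
import Pool.Agent.Helper579.Cayley.P_balanced
import Pool.Agent.Helper579.Cayley.P_frattini_odd
import Pool.Agent.Helper579.Cayley.P_no_k25
import Pool.Agent.Helper579.Cayley.P_color_bound

/-! # Cayley graphs and small complete bipartite graphs: definitions (MP_a61cf6_co) -/

namespace CayK25



/-- Every finite group has a generating set `H`, `1 ∉ H`, whose Cayley graph contains no
`K_{2,5}`. -/
theorem exists_good (G : Type*) [Group G] [Finite G] :
    ∃ H : Set G, (1 : G) ∉ H ∧ Subgroup.closure H = ⊤ ∧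
      ¬ (completeBipartiteGraph (Fin 2) (Fin 5)).IsContained (cay G H) := by
  classical
  have : Fact (Nat.Prime 2) := ⟨Nat.prime_two⟩
  obtain ⟨P⟩ : Nonempty (Sylow 2 G) := inferInstance
  obtain ⟨M, hM, hgen⟩ := frattini_odd P
  have hP2 : IsPGroup 2 (P : Subgroup G) := P.isPGroup'
  obtain ⟨X0, hX0, hX0c⟩ := balanced (P := (P : Subgroup G)) hP2 M hM
  have hS0 : Subgroup.closure ({g : G | Odd (orderOf g)} ∪
      ((X0.image (Subtype.val : ↥(P : Subgroup G) → G) : Finset G) : Set G)) = ⊤ := by
    have h1 := hgen (X0 : Set (P : Subgroup G)) hX0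
    rw [Finset.coe_image]
    exact h1
  set X : Finset G := X0.image (Subtype.val : ↥(P : Subgroup G) → G) with hXdef
  have hX2 : ∀ x ∈ X, ∃ k : ℕ, orderOf x = 2 ^ k := by
    intro x hx
    rw [hXdef, Finset.mem_image] at hx
    obtain ⟨p, _, rfl⟩ := hx
    obtain ⟨k, hk⟩ := IsPGroup.iff_orderOf.1 hP2 p
    exact ⟨k, by rw [Subgroup.orderOf_coe, hk]⟩
  have hX : ∀ a : G, a ≠ 1 → (X.filter (fun x => x ^ 2 = a)).card ≤ 2 := by
    intro a ha
    rcases (X.filter (fun x => x ^ 2 = a)).eq_empty_or_nonempty with h0 | ⟨x, hx⟩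
    · rw [h0]
      simp
    · rw [Finset.mem_filter, hXdef, Finset.mem_image] at hx
      obtain ⟨⟨p, hp, rfl⟩, hpa⟩ := hx
      have h1 : p ^ 2 ≠ 1 := by
        intro h
        apply ha
        rw [← hpa]
        have := congrArg (Subtype.val : ↥(P : Subgroup G) → G) h
        simpa using this
      have h2 := hX0c (p ^ 2) h1
      have h3 : X.filter (fun x => x ^ 2 = a) ⊆
          (X0.filter (fun x => x ^ 2 = p ^ 2)).image (Subtype.val : ↥(P : Subgroup G) → G) := by
        intro y hy
        rw [Finset.mem_filter, hXdef, Finset.mem_image] at hy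
        obtain ⟨⟨q, hq, rfl⟩, hqa⟩ := hy
        rw [Finset.mem_image]
        refine ⟨q, ?_, rfl⟩
        rw [Finset.mem_filter]
        refine ⟨hq, ?_⟩
        apply Subtype.ext
        push_cast
        rw [hqa, hpa]
      exact (Finset.card_le_card h3).trans (Finset.card_image_le.trans h2)
  have hfin : {T : Set G | T ⊆ {g : G | Odd (orderOf g)} ∪ (X : Set G) ∧
      Subgroup.closure T = ⊤}.Finite := Set.toFinite _
  obtain ⟨H, hHmin⟩ := hfin.exists_minimal ⟨_, Set.Subset.rfl, hS0⟩
  obtain ⟨hHS, hHtop⟩ := hHmin.prop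
  have hirr : ∀ h ∈ H, h ∉ Subgroup.closure (H \ {h}) := by
    intro h hh hcl
    have h1 : Subgroup.closure (H \ {h}) = ⊤ := by
      rw [eq_top_iff, ← hHtop, Subgroup.closure_le]
      intro x hx
      by_cases hxh : x = h
      · rw [hxh]
        exact hcl
      · exact Subgroup.subset_closure ⟨hx, hxh⟩
    have h2 : H ⊆ H \ {h} := hHmin.le_of_le ⟨Set.diff_subset.trans hHS, h1⟩ Set.diff_subset
    exact (h2 hh).2 rfl
  refine ⟨H, ?_, hHtop, ?_⟩
  · intro h1
    exact hirr 1 h1 (one_mem _)
  · rintro ⟨f⟩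
    have hadj : ∀ (a : Fin 2) (i : Fin 5), (cay G H).Adj (f (Sum.inl a)) (f (Sum.inr i)) := by
      intro a i
      exact f.toHom.map_adj (by simp [completeBipartiteGraph])
    refine no_k25 H hirr ?_ (f (Sum.inl 0)) (f (Sum.inl 1)) ?_ (fun i => f (Sum.inr i)) ?_
      (hadj 0) (hadj 1)
    · intro a ha s hs hsH
      apply color_bound X hX2 hX a ha s hs
      intro i
      rcases hsH i with h | h
      · rcases hHS h with h1 | h1
        · exact Or.inl h1
        · exact Or.inr (Or.inl h1)
      · rcases hHS h with h1 | h1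
        · left
          have h2 : Odd (orderOf (s i)⁻¹) := h1
          rwa [orderOf_inv] at h2
        · exact Or.inr (Or.inr h1)
    · intro h
      have := f.injective h
      simp at this
    · intro i j h
      have := f.injective h
      simpa using this

end CayK25
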