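import Pool.Agent.Helper579.Cayley.Defs

/-! # Cayley graphs and small complete bipartite graphs: definitions (MP_a61cf6_co) -/

namespace CayK25



open QuaternionGroup in
set_option maxRecDepth 100000 in
theorem q8_key1 : ∀ x y : QuaternionGroup 2, x ≠ 1 → x ≠ a 2 → y ≠ 1 → y ≠ x → y ≠ x * x →
    y ≠ x * x * x → ∀ p q : Fin 4 ⊕ Fin 4,
    Sum.elim ![1, a 2, x * y, (x * y)⁻¹] ![x, x⁻¹, y, y⁻¹] p =
      Sum.elim ![1, a 2, x * y, (x * y)⁻¹] ![x, x⁻¹, y, y⁻¹] q → p = q := by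
  decide

open QuaternionGroup in
set_option maxRecDepth 100000 in
theorem q8_key2 : ∀ x y : QuaternionGroup 2, x ≠ 1 → x ≠ a 2 → y ≠ 1 → y ≠ x → y ≠ x * x →
    y ≠ x * x * x → ∀ i j : Fin 4,
    (![x, x⁻¹, y, y⁻¹] : Fin 4 → QuaternionGroup 2) j *
        ((![1, a 2, x * y, (x * y)⁻¹] : Fin 4 → QuaternionGroup 2) i)⁻¹ = x ∨
    (![x, x⁻¹, y, y⁻¹] : Fin 4 → QuaternionGroup 2) j *
        ((![1, a 2, x * y, (x * y)⁻¹] : Fin 4 → QuaternionGroup 2) i)⁻¹ = y ∨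
    (![1, a 2, x * y, (x * y)⁻¹] : Fin 4 → QuaternionGroup 2) i *
        ((![x, x⁻¹, y, y⁻¹] : Fin 4 → QuaternionGroup 2) j)⁻¹ = x ∨
    (![1, a 2, x * y, (x * y)⁻¹] : Fin 4 → QuaternionGroup 2) i *
        ((![x, x⁻¹, y, y⁻¹] : Fin 4 → QuaternionGroup 2) j)⁻¹ = y := by
  decide

open QuaternionGroup in
set_option maxRecDepth 100000 in
theorem q8_mul : ∀ x p q : QuaternionGroup 2, (p = 1 ∨ p = x ∨ p = x * x ∨ p = x * x * x) →
    (q = 1 ∨ q = x ∨ q = x * x ∨ q = x * x * x) →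
    (p * q = 1 ∨ p * q = x ∨ p * q = x * x ∨ p * q = x * x * x) := by
  decide

open QuaternionGroup in
set_option maxRecDepth 100000 in
theorem q8_inv : ∀ x p : QuaternionGroup 2, (p = 1 ∨ p = x ∨ p = x * x ∨ p = x * x * x) →
    (p⁻¹ = 1 ∨ p⁻¹ = x ∨ p⁻¹ = x * x ∨ p⁻¹ = x * x * x) := by
  decide

open QuaternionGroup in
set_option maxRecDepth 100000 in
theorem q8_ne : ∀ x : QuaternionGroup 2, ∃ z : QuaternionGroup 2,
    ¬ (z = 1 ∨ z = x ∨ z = x * x ∨ z = x * x * x) := by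
  decide

/-- the cyclic subgroup, as an explicit set -/
def q8sub (x : QuaternionGroup 2) : Subgroup (QuaternionGroup 2) where
  carrier := {p | p = 1 ∨ p = x ∨ p = x * x ∨ p = x * x * x}
  mul_mem' := fun {p q} hp hq => q8_mul x p q hp hq
  one_mem' := Or.inl rfl
  inv_mem' := fun {p} hp => q8_inv x p hp

theorem q8_exists (H : Set (QuaternionGroup 2)) (hH : Subgroup.closure H = ⊤)
    (x : QuaternionGroup 2) :
    ∃ y ∈ H, y ≠ 1 ∧ y ≠ x ∧ y ≠ x * x ∧ y ≠ x * x * x := by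
  by_contra hcon
  have h1 : Subgroup.closure H ≤ q8sub x := by
    rw [Subgroup.closure_le]
    intro y hy
    by_contra hy2
    apply hcon
    have h3 : ¬ (y = 1 ∨ y = x ∨ y = x * x ∨ y = x * x * x) := hy2
    push Not at h3
    exact ⟨y, hy, h3⟩
  rw [hH] at h1
  obtain ⟨z, hz⟩ := q8_ne x
  exact hz (h1 (Subgroup.mem_top z))

/-- Every Cayley graph of the quaternion group of order 8 contains `K_{4,4}`. -/
theorem q8 (H : Set (QuaternionGroup 2)) (h1 : 1 ∉ H) (hH : Subgroup.closure H = ⊤) :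
    (completeBipartiteGraph (Fin 4) (Fin 4)).IsContained (cay (QuaternionGroup 2) H) := by
  obtain ⟨x, hxH, hx1, hx2, -, -⟩ := q8_exists H hH (QuaternionGroup.a 2)
  obtain ⟨y, hyH, hy1, hy2, hy3, hy4⟩ := q8_exists H hH x
  have k1 := q8_key1 x y hx1 hx2 hy1 hy2 hy3 hy4
  have k2 := q8_key2 x y hx1 hx2 hy1 hy2 hy3 hy4
  have hadj : ∀ i j : Fin 4, (cay (QuaternionGroup 2) H).Adj
      ((![1, QuaternionGroup.a 2, x * y, (x * y)⁻¹] : Fin 4 → QuaternionGroup 2) i)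
      ((![x, x⁻¹, y, y⁻¹] : Fin 4 → QuaternionGroup 2) j) := by
    intro i j
    refine ⟨fun h => ?_, ?_⟩
    · have := k1 (Sum.inl i) (Sum.inr j) h
      cases this
    · rcases k2 i j with h | h | h | h
      · left; rw [h]; exact hxH
      · left; rw [h]; exact hyH
      · right; rw [h]; exact hxH
      · right; rw [h]; exact hyH
  refine ⟨⟨⟨Sum.elim ![1, QuaternionGroup.a 2, x * y, (x * y)⁻¹] ![x, x⁻¹, y, y⁻¹], ?_⟩, ?_⟩⟩
  · intro p q hpq
    rcases p with i | i <;> rcases q with j | j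
    · simp [completeBipartiteGraph] at hpq
    · exact hadj i j
    · exact (hadj j i).symm
    · simp [completeBipartiteGraph] at hpq
  · intro p q hpq
    exact k1 p q hpq

end CayK25
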