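import Pool.Agent.Helper579.Cayley.Defs

/-! # Cayley graphs and small complete bipartite graphs: definitions (MP_a61cf6_co) -/

namespace CayK25



/-- Stars are unavoidable. -/
theorem star (t : ℕ) (H : Set (Multiplicative (Fin t → ZMod 2))) (h1 : 1 ∉ H)
    (hH : Subgroup.closure H = ⊤) :
    (completeBipartiteGraph (Fin 1) (Fin t)).IsContained
      (cay (Multiplicative (Fin t → ZMod 2)) H) := by
  classical
  haveI : Fact (Nat.Prime 2) := ⟨Nat.prime_two⟩
  set S : Set (Fin t → ZMod 2) := Multiplicative.toAdd '' H with hS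
  set W : Submodule (ZMod 2) (Fin t → ZMod 2) := Submodule.span (ZMod 2) S with hW
  have hle : Subgroup.closure H ≤ AddSubgroup.toSubgroup W.toAddSubgroup := by
    rw [Subgroup.closure_le]
    intro h hh
    show Multiplicative.toAdd h ∈ W
    exact Submodule.subset_span ⟨h, hh, rfl⟩
  have hWtop : W = ⊤ := by
    rw [eq_top_iff]
    intro x _
    have h2 : Multiplicative.ofAdd x ∈ AddSubgroup.toSubgroup W.toAddSubgroup :=
      hle (by rw [hH]; trivial)
    exact h2
  have hcard : t ≤ Fintype.card H := by
    have h3 := finrank_span_le_card (R := ZMod 2) S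
    have h4 : Module.finrank (ZMod 2) (Submodule.span (ZMod 2) S) = t := by
      rw [← hW, hWtop, finrank_top, Module.finrank_fin_fun]
    rw [h4] at h3
    have h5 : S.toFinset.card ≤ H.toFinset.card := by
      have : S.toFinset = H.toFinset.image Multiplicative.toAdd := by
        ext x; simp [hS]
      rw [this]
      exact Finset.card_image_le
    rw [Set.toFinset_card H] at h5
    exact h3.trans h5
  obtain ⟨e⟩ : Nonempty (Fin t ↪ H) :=
    Function.Embedding.nonempty_of_card_le (by rw [Fintype.card_fin]; exact hcard)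
  have hne : ∀ i, ((e i : H) : Multiplicative (Fin t → ZMod 2)) ≠ 1 := by
    intro i h
    exact h1 (h ▸ (e i).2)
  refine ⟨⟨⟨Sum.elim (fun _ => 1) (fun i => ((e i : H) : Multiplicative (Fin t → ZMod 2))), ?_⟩, ?_⟩⟩
  · rintro (a | a) (b | b) hab
    · simp at hab
    · refine ⟨fun h => hne b h.symm, Or.inl ?_⟩
      simp
    · refine ⟨fun h => hne a h, Or.inr ?_⟩
      simp
    · simp at hab
  · rintro (a | a) (b | b) hab
    · congr 1
      exact Subsingleton.elim _ _
    · exact absurd hab.symm (hne b)
    · exact absurd hab (hne a)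
    · congr 1
      exact e.injective (Subtype.ext hab)

end CayK25
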